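import Pool.Agent.Results.MP_ef0505_an.NotTubeNull

set_option autoImplicit false

namespace Pool.Agent.U750.Rogers

open MeasureTheory Pool.Agent.Results.MP_ef0505_an.NotTubeNull

noncomputable def lin : Plane →ₗ[ℝ] Plane :=
  Matrix.toEuclideanLin (Matrix.diagonal ![(1 / 3 : ℝ), 1 / 9])

lemma det_lin : LinearMap.det lin = 1 / 27 := by
  unfold lin
  rw [Matrix.toEuclideanLin_eq_toLin_orthonormal, LinearMap.det_toLin, Matrix.det_diagonal,
    Fin.prod_univ_two]
  norm_num

lemma cellMap_eq (d : ℕ × ℕ) (z : Plane) :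
    cellMap 3 9 d z = lin z + !₂[(d.1 : ℝ) / 3, (d.2 : ℝ) / 9] := by
  ext i
  fin_cases i
  · simp [cellMap, lin, Matrix.toEuclideanLin_apply, Matrix.mulVec_diagonal]
    ring
  · simp [cellMap, lin, Matrix.toEuclideanLin_apply, Matrix.mulVec_diagonal]
    ring

lemma volume_image (d : ℕ × ℕ) (F : Set Plane) :
    volume (cellMap 3 9 d '' F) = ENNReal.ofReal (1 / 27) * volume F := by
  have h : cellMap 3 9 d '' F =
      (fun z => z + !₂[(d.1 : ℝ) / 3, (d.2 : ℝ) / 9]) '' (lin '' F) := by
    rw [Set.image_image]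
    exact Set.image_congr fun z _ => cellMap_eq d z
  rw [h, Set.image_add_right, measure_preimage_add_right, Measure.addHaar_image_linearMap,
    det_lin]
  norm_num

lemma volume_carpet {F : Set Plane} (hF : IsCarpet 3 9 cells F) : volume F = 0 := by
  have hfin : volume F ≠ ⊤ := hF.1.measure_lt_top.ne
  have hle : volume F ≤ 18 * (ENNReal.ofReal (1 / 27) * volume F) := by
    calc volume F = volume (⋃ d ∈ cells, cellMap 3 9 d '' F) := by rw [← hF.2.2]
      _ ≤ ∑ d ∈ cells, volume (cellMap 3 9 d '' F) := measure_biUnion_finset_le _ _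
      _ = ∑ d ∈ cells, ENNReal.ofReal (1 / 27) * volume F := by
          simp only [volume_image]
      _ = 18 * (ENNReal.ofReal (1 / 27) * volume F) := by
          rw [Finset.sum_const, show cells.card = 18 by decide, nsmul_eq_mul]
          norm_num
  have h1 : (volume F).toReal ≤ 18 * (1 / 27 * (volume F).toReal) := by
    have := ENNReal.toReal_mono (by
      refine ENNReal.mul_ne_top (by norm_num) (ENNReal.mul_ne_top ENNReal.ofReal_ne_top hfin)) hle
    rw [ENNReal.toReal_mul, ENNReal.toReal_mul, ENNReal.toReal_ofReal (by norm_num)] at this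
    simpa using this
  have h2 : (volume F).toReal = 0 := by
    have := ENNReal.toReal_nonneg (a := volume F)
    linarith
  rcases (ENNReal.toReal_eq_zero_iff _).1 h2 with h | h
  · exact h
  · exact absurd h hfin

end Pool.Agent.U750.Rogers
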