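import Pool.Agent.U750.Rogers.CarpetNull
import Pool.Agent.Results.MP_6b55e5_an.RogersQ2

set_option autoImplicit false

namespace Pool.Agent.U750.Rogers

open MeasureTheory Pool.Agent.Results.MP_ef0505_an.NotTubeNull
open Pool.Agent.Results.MP_6b55e5_an.RogersQ2 (IsStrip HasStripCover PropertyS IsBesicovitch)

/-- a closed strip of width `w` lies in an open strip of half-width `w` with normalised
coefficients -/
lemma strip_sub {S : Set Plane} {w : ℝ} (h : IsStrip S w) :
    ∃ α β t, Pool.Agent.W710.Tube.Norm α β ∧ S ⊆ Pool.Agent.W710.Tube.Strip α β t w := by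
  obtain ⟨hw, u, c, hu, rfl⟩ := h
  have hn : u 0 ^ 2 + u 1 ^ 2 = 1 := by
    have h1 : ‖u‖ ^ 2 = 1 := by rw [hu]; norm_num
    rw [EuclideanSpace.norm_sq_eq] at h1
    simpa [Fin.sum_univ_two] using h1
  have hin : ∀ x : Plane, inner ℝ u x = u 0 * x 0 + u 1 * x 1 := by
    intro x
    simp [PiLp.inner_apply, Fin.sum_univ_two, mul_comm]
  rcases le_total |u 1| |u 0| with hle | hle
  · have h0 : 1 / 2 ≤ u 0 ^ 2 := by
      have := sq_le_sq.2 hle
      linarith
    have hne : u 0 ≠ 0 := by
      intro h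
      rw [h] at h0
      norm_num at h0
    have habs : 0 < |u 0| := abs_pos.2 hne
    refine ⟨1, u 1 / u 0, (c + w / 2) / u 0, Or.inl ⟨rfl, ?_⟩, ?_⟩
    · rw [abs_div, div_le_one habs]
      exact hle
    · rintro x ⟨hx1, hx2⟩
      rw [hin] at hx1 hx2
      show |1 * x 0 + u 1 / u 0 * x 1 - (c + w / 2) / u 0| < w
      have e : 1 * x 0 + u 1 / u 0 * x 1 - (c + w / 2) / u 0 =
          (u 0 * x 0 + u 1 * x 1 - (c + w / 2)) / u 0 := by
        field_simp
      rw [e, abs_div, div_lt_iff₀ habs]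
      have h2 : |u 0 * x 0 + u 1 * x 1 - (c + w / 2)| ≤ w / 2 := by
        rw [abs_le]
        constructor <;> linarith
      have h3 : 1 / 2 < |u 0| := by
        by_contra hcon
        push Not at hcon
        have h4 := sq_abs (u 0)
        nlinarith [abs_nonneg (u 0)]
      nlinarith
  · have h0 : 1 / 2 ≤ u 1 ^ 2 := by
      have := sq_le_sq.2 hle
      linarith
    have hne : u 1 ≠ 0 := by
      intro h
      rw [h] at h0
      norm_num at h0
    have habs : 0 < |u 1| := abs_pos.2 hne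
    refine ⟨u 0 / u 1, 1, (c + w / 2) / u 1, Or.inr ⟨rfl, ?_⟩, ?_⟩
    · rw [abs_div, div_le_one habs]
      exact hle
    · rintro x ⟨hx1, hx2⟩
      rw [hin] at hx1 hx2
      show |u 0 / u 1 * x 0 + 1 * x 1 - (c + w / 2) / u 1| < w
      have e : u 0 / u 1 * x 0 + 1 * x 1 - (c + w / 2) / u 1 =
          (u 0 * x 0 + u 1 * x 1 - (c + w / 2)) / u 1 := by
        field_simp
      rw [e, abs_div, div_lt_iff₀ habs]
      have h2 : |u 0 * x 0 + u 1 * x 1 - (c + w / 2)| ≤ w / 2 := by
        rw [abs_le]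
        constructor <;> linarith
      have h3 : 1 / 2 < |u 1| := by
        by_contra hcon
        push Not at hcon
        have h4 := sq_abs (u 1)
        nlinarith [abs_nonneg (u 1)]
      nlinarith

/-- strips that cover the carpet have total width at least `1 / C` -/
lemma carpet_no_cover {F : Set Plane} (hF : IsCarpet 3 9 cells F) :
    ¬ HasStripCover F (1 / Pool.Agent.W710.Tube.CC) := by
  rintro ⟨ι, _, S, w, hS, hcov, hsum, hlt⟩
  choose α β t hN hsub using fun i => strip_sub (hS i)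
  obtain ⟨s, hs⟩ := Pool.Agent.W710.Tube.strip_cover (F := F) hF α β t w hN
    (fun i => (hS i).1) (hcov.trans (Set.iUnion_mono hsub))
  have h1 := hsum.sum_le_tsum s (fun i _ => (hS i).1.le)
  linarith

lemma HasStripCover.anti {E F : Set Plane} {ε : ℝ} (h : HasStripCover E ε) (hFE : F ⊆ E) :
    HasStripCover F ε := by
  obtain ⟨ι, hι, S, w, hS, hcov, hsum, hlt⟩ := h
  exact ⟨ι, hι, S, w, hS, hFE.trans hcov, hsum, hlt⟩

end Pool.Agent.U750.Rogers
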